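import Mathlib

set_option autoImplicit false

namespace Pool.Agent.H526Z.DN

open Polynomial ComplexConjugate

noncomputable def dag (P : ℂ[X]) : ℂ[X] := P.reverse.map (starRingEnd ℂ)

theorem dag_natDegree (P : ℂ[X]) : (dag P).natDegree + P.natTrailingDegree = P.natDegree := by
  rw [dag, natDegree_map_eq_of_injective (RingHom.injective _),
    ← natDegree_eq_reverse_natDegree_add_natTrailingDegree]

theorem dag_leadingCoeff (P : ℂ[X]) : (dag P).leadingCoeff = conj P.trailingCoeff := by
  rw [dag, leadingCoeff_map_of_injective (RingHom.injective _), reverse_leadingCoeff]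

theorem dag_ne_zero {P : ℂ[X]} (h : P ≠ 0) : dag P ≠ 0 := by
  rw [← leadingCoeff_ne_zero, dag_leadingCoeff]
  simpa using h

theorem dag_eval (P : ℂ[X]) (t : ℂ) (ht : ‖t‖ = 1) :
    (dag P).eval t = t ^ P.natDegree * conj (P.eval t) := by
  have h0 : t ≠ 0 := by rintro rfl; simp at ht
  have hc : conj t = t⁻¹ := (Complex.inv_eq_conj ht).symm
  let _ : Invertible t⁻¹ := invertibleOfNonzero (inv_ne_zero h0)
  have h := eval₂_reverse_mul_pow (starRingEnd ℂ) t⁻¹ P
  rw [invOf_eq_inv, inv_inv] at h
  have h2 : eval₂ (starRingEnd ℂ) t⁻¹ P = conj (P.eval t) := by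
    rw [← hc, eval₂_at_apply]
  rw [dag, eval_map, ← h2, ← h, inv_pow]
  field_simp

theorem nonpar (A B : ℂ[X]) (hA : A ≠ 0) (hB : B ≠ 0)
    (h : A.natDegree + A.natTrailingDegree = B.natDegree + B.natTrailingDegree →
      A.leadingCoeff * conj B.trailingCoeff ≠ conj A.trailingCoeff * B.leadingCoeff) :
    {t : ℂ | ‖t‖ = 1 ∧ A.eval t * conj (B.eval t) = conj (A.eval t) * B.eval t}.Finite := by
  have hF : X ^ A.natDegree * A * dag B - X ^ B.natDegree * dag A * B ≠ 0 := by
    intro h0
    rw [sub_eq_zero] at h0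
    have h1 := congrArg natDegree h0
    have h2 := congrArg leadingCoeff h0
    have hX : ∀ n : ℕ, (X ^ n : ℂ[X]) ≠ 0 := fun n => pow_ne_zero _ X_ne_zero
    rw [natDegree_mul (mul_ne_zero (hX _) hA) (dag_ne_zero hB), natDegree_mul (hX _) hA,
      natDegree_mul (mul_ne_zero (hX _) (dag_ne_zero hA)) hB,
      natDegree_mul (hX _) (dag_ne_zero hA), natDegree_X_pow, natDegree_X_pow] at h1
    simp only [leadingCoeff_mul, leadingCoeff_X_pow, one_mul, dag_leadingCoeff] at h2
    have := dag_natDegree A
    have := dag_natDegree B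
    exact h (by omega) h2
  refine (finite_setOfPred_isRoot hF).subset ?_
  rintro t ⟨ht, h'⟩
  simp only [Set.mem_ofPred_eq, IsRoot.def, eval_sub, eval_mul, eval_pow, eval_X, dag_eval _ t ht]
  linear_combination (t ^ A.natDegree * t ^ B.natDegree) * h'

/-- small real digits -/
noncomputable def cr (a : ℕ) : ℝ := 1 / (4 * ((a : ℝ) + 1))
noncomputable def c (a : ℕ) : ℂ := (cr a : ℂ)
/-- unit digits -/
noncomputable def q (j : ℕ) : ℂ := ⟨-(1 / ((j : ℝ) + 1)), √(1 - (1 / ((j : ℝ) + 1)) ^ 2)⟩

theorem cr_pos (a : ℕ) : 0 < cr a := by unfold cr; positivity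
theorem cr_le (a : ℕ) : cr a ≤ 1 / 4 := by
  unfold cr
  apply one_div_le_one_div_of_le (by norm_num)
  have : (0 : ℝ) ≤ a := Nat.cast_nonneg a
  linarith

theorem cr_inj {a b : ℕ} (h : cr a = cr b) : a = b := by
  unfold cr at h
  have h1 : (0 : ℝ) < 4 * ((a : ℝ) + 1) := by positivity
  have h2 : (0 : ℝ) < 4 * ((b : ℝ) + 1) := by positivity
  rw [div_eq_div_iff h1.ne' h2.ne'] at h
  have : (a : ℝ) = b := by linarith
  exact_mod_cast this

theorem c_inj {a b : ℕ} (h : c a = c b) : a = b := cr_inj (by unfold c at h; exact_mod_cast h)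

theorem norm_c (a : ℕ) : ‖c a‖ ≤ 1 / 4 := by
  rw [c, Complex.norm_real, Real.norm_of_nonneg (cr_pos a).le]
  exact cr_le a

theorem q_re (j : ℕ) : (q j).re < 0 := by
  have : (0 : ℝ) < 1 / ((j : ℝ) + 1) := by positivity
  simpa [q] using this

theorem q_normSq (j : ℕ) : Complex.normSq (q j) = 1 := by
  have h0 : (0 : ℝ) < 1 / ((j : ℝ) + 1) := by positivity
  have h1 : 1 / ((j : ℝ) + 1) ≤ 1 := by
    rw [div_le_one (by positivity)]
    have : (0 : ℝ) ≤ j := Nat.cast_nonneg j
    linarith
  rw [q, Complex.normSq_mk, Real.mul_self_sqrt (by nlinarith)]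
  ring

theorem norm_q (j : ℕ) : ‖q j‖ = 1 := by
  rw [Complex.norm_def, q_normSq, Real.sqrt_one]

theorem q_inj {i j : ℕ} (h : q i = q j) : i = j := by
  have h1 := congrArg Complex.re h
  simp only [q, neg_inj] at h1
  have h2 : (0 : ℝ) < (i : ℝ) + 1 := by positivity
  have h3 : (0 : ℝ) < (j : ℝ) + 1 := by positivity
  rw [div_eq_div_iff h2.ne' h3.ne'] at h1
  have : (i : ℝ) = j := by linarith
  exact_mod_cast this

theorem q_ne_zero (j : ℕ) : q j ≠ 0 := by
  intro h
  have := norm_q j
  rw [h] at this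
  simp at this

theorem norm_c_sub_q (a j : ℕ) : 3 / 4 ≤ ‖c a - q j‖ := by
  have h1 := norm_sub_norm_le (q j) (c a)
  rw [norm_sub_rev, norm_q] at h1
  have := norm_c a
  linarith

theorem c_ne_q (a j : ℕ) : c a - q j ≠ 0 := by
  intro h
  have := norm_c_sub_q a j
  rw [h] at this
  norm_num at this

theorem norm_c_sub_c (a b : ℕ) : ‖c a - c b‖ ≤ 1 / 2 := by
  have := norm_sub_le (c a) (c b)
  have := norm_c a
  have := norm_c b
  linarith

theorem three_q {i j k : ℕ} (hij : j ≠ i) (hik : k ≠ i)
    (h : (q j - q i) * conj (q k - q i) = conj (q j - q i) * (q k - q i)) : k = j := by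
  have hc : ∀ n, conj (q n) = (q n)⁻¹ := fun n => (Complex.inv_eq_conj (norm_q n)).symm
  simp only [map_sub, hc] at h
  have h1 := q_ne_zero i
  have h2 := q_ne_zero j
  have h3 := q_ne_zero k
  have h4 : q j - q i ≠ 0 := sub_ne_zero.2 fun h => hij (q_inj h)
  have h5 : q k - q i ≠ 0 := sub_ne_zero.2 fun h => hik (q_inj h)
  apply q_inj
  field_simp at h
  have : (q j - q i) * (q k - q i) * (q k - q j) = 0 := by linear_combination h
  simpa [h4, h5, sub_eq_zero] using this

theorem child_q {a b j j' j'' : ℕ}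
    (h : q j' * conj (c b - q j) = conj (c a - q j) * q j'') : b = a ∧ j'' = j' := by
  have h1 := congrArg Complex.normSq h
  rw [map_mul, map_mul, q_normSq, q_normSq, Complex.normSq_conj, Complex.normSq_conj,
    Complex.normSq_apply, Complex.normSq_apply] at h1
  simp only [c, Complex.sub_re, Complex.ofReal_re, Complex.sub_im, Complex.ofReal_im] at h1
  have h2 : (cr b - cr a) * (cr b + cr a - 2 * (q j).re) = 0 := by linear_combination h1
  have h3 : cr b + cr a - 2 * (q j).re ≠ 0 := by
    have := cr_pos a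
    have := cr_pos b
    have := q_re j
    linarith [show 0 < cr b + cr a - 2 * (q j).re by linarith] |> fun (h : 0 < _) => h.ne'
  have hab : b = a := cr_inj (by simpa [h3, sub_eq_zero] using h2)
  subst hab
  refine ⟨rfl, q_inj ?_⟩
  have h4 : conj (c b - q j) ≠ 0 := by simpa [-map_sub] using c_ne_q b j
  rw [mul_comm] at h
  exact (mul_left_cancel₀ h4 h).symm

/-- The position of the point `j` of the cluster with address `w`. -/
noncomputable def P : List ℕ → ℕ → ℂ[X]
  | [], j => C (q j)
  | a :: w, j => C (c a) + X * P w j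

theorem P_coeff_lt (w : List ℕ) (j : ℕ) : ∀ i (h : i < w.length), (P w j).coeff i = c w[i] := by
  induction w with
  | nil => intro i h; simp at h
  | cons a w ih =>
    intro i h
    cases i with
    | zero => simp [P]
    | succ i =>
      simp only [P, coeff_add, coeff_X_mul, coeff_C_succ, zero_add, List.getElem_cons_succ]
      exact ih i (by simpa using h)

theorem P_coeff_eq (w : List ℕ) (j : ℕ) : (P w j).coeff w.length = q j := by
  induction w with
  | nil => simp [P]
  | cons a w ih => simp [P, coeff_X_mul, coeff_C_succ, ih]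

theorem P_coeff_gt (w : List ℕ) (j : ℕ) : ∀ i, w.length < i → (P w j).coeff i = 0 := by
  induction w with
  | nil =>
    intro i h
    cases i with
    | zero => simp at h
    | succ i => simp [P, coeff_C_succ]
  | cons a w ih =>
    intro i h
    cases i with
    | zero => simp at h
    | succ i =>
      simp only [P, coeff_add, coeff_X_mul, coeff_C_succ, zero_add]
      exact ih i (by simpa using h)

theorem P_same (w : List ℕ) (j j' : ℕ) : P w j' - P w j = C (q j' - q j) * X ^ w.length := by
  induction w with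
  | nil => simp [P]
  | cons a w ih =>
    simp only [P, List.length_cons, pow_succ]
    linear_combination X * ih

theorem P_child (w : List ℕ) (a j j' : ℕ) :
    P (w ++ [a]) j' - P w j = (C (c a - q j) + C (q j') * X) * X ^ w.length := by
  induction w with
  | nil => simp [P]; ring
  | cons b w ih =>
    simp only [P, List.cons_append, List.length_cons, pow_succ]
    linear_combination X * ih

/-- If two positions agree below `|w|` and `|w| ≤ |u|`, then `w` is a prefix of `u`. -/
theorem agree {w u : List ℕ} {j k : ℕ} (h : ∀ i < w.length, (P u k - P w j).coeff i = 0) :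
    w.length ≤ u.length ∧ u.take w.length = w := by
  have h1 : w.length ≤ u.length := by
    by_contra hlt
    push Not at hlt
    have := h _ hlt
    rw [coeff_sub, P_coeff_eq, P_coeff_lt w j _ hlt] at this
    exact c_ne_q w[u.length] k (by linear_combination -this)
  refine ⟨h1, List.ext_getElem (by simp [h1]) fun i hi1 hi2 => ?_⟩
  have := h i hi2
  rw [coeff_sub, P_coeff_lt u k i (by omega), P_coeff_lt w j i hi2, sub_eq_zero] at this
  simpa using c_inj this

theorem P_inj {w u : List ℕ} {j k : ℕ} (h : P u k - P w j = 0) : u = w ∧ k = j := by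
  have h1 := agree (w := w) (u := u) (j := j) (k := k) (by simp [h])
  have h2 := agree (w := u) (u := w) (j := k) (k := j) (by
    have : P w j - P u k = 0 := by linear_combination -h
    simp [this])
  have h3 : u = w := by
    rw [← h1.2, List.take_of_length_le (by omega)]
  subst h3
  rw [P_same] at h
  have h4 : (X ^ u.length : ℂ[X]) ≠ 0 := pow_ne_zero _ X_ne_zero
  have h5 : q k - q j = 0 := by simpa [h4, -map_sub] using h
  exact ⟨rfl, q_inj (sub_eq_zero.1 h5)⟩

theorem high {w u : List ℕ} {j k : ℕ} (h : w.length < u.length) :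
    (P u k - P w j).natDegree = u.length ∧ (P u k - P w j).leadingCoeff = q k := by
  have h1 : (P u k - P w j).coeff u.length = q k := by
    rw [coeff_sub, P_coeff_eq, P_coeff_gt w j _ h, sub_zero]
  have h2 : (P u k - P w j).natDegree = u.length := by
    apply natDegree_eq_of_le_of_coeff_ne_zero
    · rw [natDegree_le_iff_coeff_eq_zero]
      intro i hi
      rw [coeff_sub, P_coeff_gt u k i hi, P_coeff_gt w j i (by omega), sub_zero]
    · rw [h1]; exact q_ne_zero k
  exact ⟨h2, by rw [leadingCoeff, h2, h1]⟩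

theorem low {w u : List ℕ} {j k : ℕ} (h : u.length ≤ w.length) :
    (P u k - P w j).natDegree ≤ w.length := by
  rw [natDegree_le_iff_coeff_eq_zero]
  intro i hi
  rw [coeff_sub, P_coeff_gt u k i (by omega), P_coeff_gt w j i hi, sub_zero]

theorem trail_small {w u : List ℕ} {j k : ℕ} (h : w.length < u.length)
    (h' : (P u k - P w j).natTrailingDegree < w.length) :
    ‖(P u k - P w j).trailingCoeff‖ ≤ 1 / 2 := by
  rw [trailingCoeff, coeff_sub, P_coeff_lt u k _ (by omega), P_coeff_lt w j _ h']
  exact norm_c_sub_c _ _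

theorem tc_mon (n : ℕ) {a : ℂ} (h : a ≠ 0) : (monomial n a).trailingCoeff = a := by
  rw [trailingCoeff, natTrailingDegree_monomial h, coeff_monomial_same]

theorem fin_same (w u : List ℕ) (j j' k : ℕ) (hj : j' ≠ j) (h1 : ¬ (u = w ∧ k = j))
    (h2 : ¬ (u = w ∧ k = j')) :
    {t : ℂ | ‖t‖ = 1 ∧ (P w j' - P w j).eval t * conj ((P u k - P w j).eval t) =
      conj ((P w j' - P w j).eval t) * (P u k - P w j).eval t}.Finite := by
  have hq : q j' - q j ≠ 0 := sub_ne_zero.2 fun h => hj (q_inj h)
  have hB : P u k - P w j ≠ 0 := fun h => h1 (P_inj h)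
  refine nonpar _ _ (fun h => hj (P_inj h).2) hB ?_
  rw [P_same, C_mul_X_pow_eq_monomial, natDegree_monomial_eq _ hq, natTrailingDegree_monomial hq,
    leadingCoeff_monomial, tc_mon _ hq]
  intro hd h
  have hle := natTrailingDegree_le_natDegree (P u k - P w j)
  by_cases hlt : w.length < u.length
  · obtain ⟨e1, e2⟩ := high (j := j) (k := k) hlt
    have e3 := trail_small (j := j) (k := k) hlt (by omega)
    have e4 := congrArg norm h
    rw [norm_mul, norm_mul, Complex.norm_conj, Complex.norm_conj, e2, norm_q] at e4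
    have := mul_left_cancel₀ (norm_ne_zero_iff.2 hq) e4
    linarith
  · push Not at hlt
    have e1 := low (j := j) (k := k) hlt
    have e2 := agree (w := w) (u := u) (j := j) (k := k) fun i hi =>
      coeff_eq_zero_of_lt_natTrailingDegree (by omega)
    have e3 : u = w := by rw [← e2.2, List.take_of_length_le hlt]
    subst e3
    have hk : k ≠ j := fun h => h1 ⟨rfl, h⟩
    have hq' : q k - q j ≠ 0 := sub_ne_zero.2 fun h => hk (q_inj h)
    rw [P_same, C_mul_X_pow_eq_monomial, leadingCoeff_monomial, tc_mon _ hq'] at h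
    exact h2 ⟨rfl, three_q hj hk h⟩

theorem child_data (w : List ℕ) (a j j' : ℕ) :
    (P (w ++ [a]) j' - P w j).natTrailingDegree = w.length ∧
    (P (w ++ [a]) j' - P w j).trailingCoeff = c a - q j := by
  have h1 : (P (w ++ [a]) j' - P w j).coeff w.length = c a - q j := by
    rw [coeff_sub, P_coeff_eq, P_coeff_lt _ _ _ (by simp)]
    simp
  have h2 : (P (w ++ [a]) j' - P w j).natTrailingDegree = w.length := by
    apply le_antisymm
    · apply natTrailingDegree_le_of_ne_zero
      rw [h1]; exact c_ne_q a j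
    · apply le_natTrailingDegree
      · intro h
        have := (P_inj h).1
        simp at this
      · intro m hm
        rw [coeff_sub, P_coeff_lt _ _ _ hm, P_coeff_lt _ _ _ (by simp; omega),
          List.getElem_append_left hm, sub_self]
  exact ⟨h2, by rw [trailingCoeff, h2, h1]⟩

theorem fin_child (w u : List ℕ) (a j j' k : ℕ) (h1 : ¬ (u = w ∧ k = j))
    (h2 : ¬ (u = w ++ [a] ∧ k = j')) :
    {t : ℂ | ‖t‖ = 1 ∧ (P (w ++ [a]) j' - P w j).eval t * conj ((P u k - P w j).eval t) =
      conj ((P (w ++ [a]) j' - P w j).eval t) * (P u k - P w j).eval t}.Finite := by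
  have hB : P u k - P w j ≠ 0 := fun h => h1 (P_inj h)
  refine nonpar _ _ (fun h => by simpa using (P_inj h).1) hB ?_
  obtain ⟨a1, a2⟩ := high (w := w) (u := w ++ [a]) (j := j) (k := j') (by simp)
  obtain ⟨a3, a4⟩ := child_data w a j j'
  rw [a1, a2, a3, a4, List.length_append, List.length_singleton]
  intro hd h
  have hle := natTrailingDegree_le_natDegree (P u k - P w j)
  have hlt : w.length < u.length := by
    by_contra hlt
    push Not at hlt
    have e1 := low (j := j) (k := k) hlt
    omega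
  obtain ⟨e1, e2⟩ := high (j := j) (k := k) hlt
  by_cases ho : (P u k - P w j).natTrailingDegree < w.length
  · have e3 := trail_small (j := j) (k := k) hlt ho
    have e4 := congrArg norm h
    rw [norm_mul, norm_mul, Complex.norm_conj, Complex.norm_conj, e2, norm_q, norm_q] at e4
    have := norm_c_sub_q a j
    linarith
  · have e3 := agree (w := w) (u := u) (j := j) (k := k) fun i hi =>
      coeff_eq_zero_of_lt_natTrailingDegree (by omega)
    have e4 : u.length = w.length + 1 := by omega
    have e5 : u = w ++ [u[w.length]] := by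
      conv_lhs => rw [← List.take_length (l := u), e4, List.take_succ_eq_append_getElem hlt, e3.2]
    generalize u[w.length] = b at e5
    subst e5
    rw [e2, (child_data w b j k).2] at h
    obtain ⟨rfl, rfl⟩ := child_q h
    exact h2 ⟨rfl, rfl⟩

/-- A generic point of the unit circle. -/
theorem exists_t {V : Type} [Finite V] (φ : V → List ℕ) (j : V → ℕ)
    (hinj : ∀ u v, φ u = φ v → j u = j v → u = v) :
    ∃ t : ℂ, ‖t‖ = 1 ∧ (Function.Injective fun v => (P (φ v) (j v)).eval t) ∧
      ∀ u v w, u ≠ v → (φ v = φ u ∨ ∃ a, φ v = φ u ++ [a]) → w ≠ u → w ≠ v →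
        (P (φ w) (j w)).eval t ∉ segment ℝ ((P (φ u) (j u)).eval t) ((P (φ v) (j v)).eval t) := by
  let E1 : V × V → Set ℂ := fun x =>
    {t | x.1 ≠ x.2 ∧ IsRoot (P (φ x.1) (j x.1) - P (φ x.2) (j x.2)) t}
  let E2 : V × V × V → Set ℂ := fun x =>
    {t | (x.1 ≠ x.2.1 ∧ (φ x.2.1 = φ x.1 ∨ ∃ a, φ x.2.1 = φ x.1 ++ [a]) ∧ x.2.2 ≠ x.1 ∧
      x.2.2 ≠ x.2.1) ∧ ‖t‖ = 1 ∧
      (P (φ x.2.1) (j x.2.1) - P (φ x.1) (j x.1)).eval t *
        conj ((P (φ x.2.2) (j x.2.2) - P (φ x.1) (j x.1)).eval t) =
      conj ((P (φ x.2.1) (j x.2.1) - P (φ x.1) (j x.1)).eval t) *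
        (P (φ x.2.2) (j x.2.2) - P (φ x.1) (j x.1)).eval t}
  have f1 : ∀ x, (E1 x).Finite := by
    rintro ⟨u, v⟩
    by_cases h : u = v
    · simp [E1, h]
    · refine (finite_setOfPred_isRoot (p := P (φ u) (j u) - P (φ v) (j v)) fun h' => ?_).subset
        fun t ht => ht.2
      exact h (hinj u v (P_inj h').1 (P_inj h').2)
  have f2 : ∀ x, (E2 x).Finite := by
    rintro ⟨u, v, w⟩
    by_cases h : u ≠ v ∧ (φ v = φ u ∨ ∃ a, φ v = φ u ++ [a]) ∧ w ≠ u ∧ w ≠ v
    · obtain ⟨h1, h2, h3, h4⟩ := h
      have g1 : ¬ (φ w = φ u ∧ j w = j u) := fun h => h3 (hinj _ _ h.1 h.2)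
      have g2 : ¬ (φ w = φ v ∧ j w = j v) := fun h => h4 (hinj _ _ h.1 h.2)
      rcases h2 with h2 | ⟨a, h2⟩
      · refine (fin_same (φ u) (φ w) (j u) (j v) (j w) (fun h => h1 (hinj _ _ h2 h).symm) g1
          (h2 ▸ g2)).subset fun t ht => ?_
        have := ht.2
        simp only [h2] at this
        exact this
      · refine (fin_child (φ u) (φ w) a (j u) (j v) (j w) g1 (h2 ▸ g2)).subset fun t ht => ?_
        have := ht.2
        simp only [h2] at this
        exact this
    · exact Set.finite_empty.subset fun t ht => h ht.1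
  have hinf : (Set.range q).Infinite := Set.infinite_range_of_injective fun _ _ => q_inj
  obtain ⟨t, ⟨n, rfl⟩, ht⟩ := hinf.exists_notMem_finite
    ((Set.finite_iUnion f1).union (Set.finite_iUnion f2))
  simp only [Set.mem_union, Set.mem_iUnion, not_or, not_exists] at ht
  refine ⟨q n, norm_q n, fun u v h => ?_, fun u v w h1 h2 h3 h4 hs => ?_⟩
  · by_contra huv
    apply ht.1 (u, v)
    refine ⟨huv, ?_⟩
    simp only [IsRoot.def, eval_sub]
    exact sub_eq_zero.2 h
  · apply ht.2 (u, v, w)
    refine ⟨⟨h1, h2, h3, h4⟩, norm_q n, ?_⟩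
    obtain ⟨a, b, _, _, hab, h⟩ := hs
    simp only [eval_sub]
    have ha : (a : ℂ) = 1 - b := by
      have : ((a + b : ℝ) : ℂ) = 1 := by rw [hab]; simp
      push_cast at this
      linear_combination this
    rw [← h]
    simp only [Complex.real_smul, map_sub, map_add, map_mul, Complex.conj_ofReal, ha, map_one]
    ring

end Pool.Agent.H526Z.DN
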