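import Pool.Agent.H526Z.DN.Sep

set_option autoImplicit false

namespace Pool.Agent.H526Z.DN

open Finset

/-- Equal addresses, or parent and child. -/
def Near (w w' : List ℕ) : Prop := w = w' ∨ (∃ a, w' = w ++ [a]) ∨ (∃ a, w = w' ++ [a])

theorem Near.symm {w w' : List ℕ} (h : Near w w') : Near w' w := by
  rcases h with h | h | h
  · exact Or.inl h.symm
  · exact Or.inr (Or.inr h)
  · exact Or.inr (Or.inl h)

theorem Near.cons {w w' : List ℕ} (h : Near w w') (b : ℕ) : Near (b :: w) (b :: w') := by
  rcases h with h | ⟨a, h⟩ | ⟨a, h⟩
  · exact Or.inl (by rw [h])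
  · exact Or.inr (Or.inl ⟨a, by rw [h]; rfl⟩)
  · exact Or.inr (Or.inr ⟨a, by rw [h]; rfl⟩)

def shift (r : ℕ) : List ℕ → List ℕ
  | [] => []
  | a :: w => (a + r) :: w

theorem shift_snoc (r : ℕ) (w : List ℕ) (a : ℕ) : ∃ b, shift r (w ++ [a]) = shift r w ++ [b] := by
  cases w with
  | nil => exact ⟨a + r, rfl⟩
  | cons c w => exact ⟨a, rfl⟩

theorem Near.shift {w w' : List ℕ} (h : Near w w') (r : ℕ) : Near (shift r w) (shift r w') := by
  rcases h with h | ⟨a, h⟩ | ⟨a, h⟩
  · exact Or.inl (by rw [h])
  · exact Or.inr (Or.inl (h ▸ shift_snoc r w a))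
  · exact Or.inr (Or.inr (h ▸ shift_snoc r w' a))

variable {V : Type} [Fintype V] [DecidableEq V]

structure Good (G : SimpleGraph V) (K M : ℕ) (U S : Finset V) (φ : V → List ℕ) : Prop where
  root : ∀ v ∈ S, φ v = []
  adj : ∀ u ∈ U, ∀ v ∈ U, G.Adj u v → Near (φ u) (φ v)
  rootsize : (U.filter (fun v => φ v = [])).card + 4 * K ≤ 2 * max S.card (4 * K)
  size : ∀ w, (U.filter (fun v => φ v = w)).card ≤ 2 * M
  first : ∀ v ∈ U, ∀ a w, φ v = a :: w → a + 2 * K < max S.card (4 * K)
  letters : ∀ v ∈ U, ∀ a ∈ φ v, a < M

theorem part (G : SimpleGraph V) (K ℓ M : ℕ) (hK : 1 ≤ K) (hM : 12 * K * ℓ + 12 * K + 1 ≤ M)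
    (hsep : HasSep G K) (hdeg : ∀ v, (G.neighborSet v).ncard ≤ ℓ) :
    ∀ n : ℕ, ∀ U S : Finset V, U.card = n → S ⊆ U → S.Nonempty → S.card ≤ M →
      ∃ φ, Good G K M U S φ := by
  classical
  intro n
  induction n using Nat.strong_induction_on with
  | _ n ih =>
    intro U S hn hSU hSne hSM
    by_cases hsmall : S.card ≤ 12 * K
    · have hroot : S.card + 4 * K ≤ 2 * max S.card (4 * K) := by omega
      by_cases hUS : U ⊆ S
      · have hU : U = S := Subset.antisymm hUS hSU
        subst hU
        refine ⟨fun _ => [], fun _ _ => rfl, fun _ _ _ _ _ => Or.inl rfl, ?_, ?_, ?_, ?_⟩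
        · simpa using hroot
        · intro w
          have := card_filter_le U (fun _ => ([] : List ℕ) = w)
          omega
        · intro v _ a w h; simp at h
        · intro v _ a h; simp at h
      · obtain ⟨v0, hv0, hv0'⟩ := not_subset.1 hUS
        let S' : Finset V := insert v0 ((S.biUnion (fun u => G.neighborFinset u)) ∩ (U \ S))
        have hS'U : S' ⊆ U \ S := by
          intro v hv
          rcases mem_insert.1 hv with rfl | hv
          · exact mem_sdiff.2 ⟨hv0, hv0'⟩
          · exact (mem_inter.1 hv).2
        have hS'c : S'.card ≤ M := by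
          have h1 := card_insert_le v0 ((S.biUnion (fun u => G.neighborFinset u)) ∩ (U \ S))
          have h2 : ((S.biUnion (fun u => G.neighborFinset u)) ∩ (U \ S)).card ≤
              (S.biUnion (fun u => G.neighborFinset u)).card := card_le_card inter_subset_left
          have h3 : (S.biUnion (fun u => G.neighborFinset u)).card ≤ S.card * ℓ := by
            refine card_biUnion_le_card_mul _ _ _ fun u _ => ?_
            have := hdeg u
            rwa [← Set.ncard_coe_finset, SimpleGraph.coe_neighborFinset]
          have h4 : S.card * ℓ ≤ 12 * K * ℓ := Nat.mul_le_mul_right _ hsmall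
          change (insert v0 _ : Finset V).card ≤ M
          omega
        have hlt : (U \ S).card < n := by
          rw [← hn]
          apply card_lt_card
          obtain ⟨s, hs⟩ := hSne
          exact ⟨sdiff_subset, fun h => (mem_sdiff.1 (h (hSU hs))).2 hs⟩
        obtain ⟨φ, hφ⟩ := ih _ hlt (U \ S) S' rfl hS'U (insert_nonempty _ _) hS'c
        have hcross : ∀ u ∈ S, ∀ v ∈ U, v ∉ S → G.Adj u v → φ v = [] := by
          intro u hu v hv hvS huv
          apply hφ.root
          refine mem_insert_of_mem (mem_inter.2 ⟨mem_biUnion.2 ⟨u, hu, ?_⟩, mem_sdiff.2 ⟨hv, hvS⟩⟩)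
          simpa using huv
        have hr : (U.filter (fun v => (if v ∈ S then [] else 0 :: φ v) = [])) ⊆ S := by
          intro v hv
          by_contra h
          simp [h] at hv
        refine ⟨fun v => if v ∈ S then [] else 0 :: φ v, fun v hv => by simp [hv], ?_, ?_, ?_,
          ?_, ?_⟩
        · intro u hu v hv huv
          by_cases h1 : u ∈ S <;> by_cases h2 : v ∈ S <;> simp only [h1, h2, if_true, if_false]
          · exact Or.inl rfl
          · rw [hcross u h1 v hv h2 huv]
            exact Or.inr (Or.inl ⟨0, rfl⟩)
          · rw [hcross v h2 u hu h1 huv.symm]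
            exact Or.inr (Or.inr ⟨0, rfl⟩)
          · exact (hφ.adj u (mem_sdiff.2 ⟨hu, h1⟩) v (mem_sdiff.2 ⟨hv, h2⟩) huv).cons 0
        · have := card_le_card hr
          omega
        · intro w
          cases w with
          | nil =>
            have := card_le_card hr
            omega
          | cons a w =>
            refine le_trans (card_le_card ?_) (hφ.size w)
            intro v hv
            rw [mem_filter] at hv ⊢
            by_cases h : v ∈ S
            · simp [h] at hv
            · simp only [h, if_false, List.cons.injEq] at hv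
              exact ⟨mem_sdiff.2 ⟨hv.1, h⟩, hv.2.2⟩
        · intro v hv a w h
          by_cases h' : v ∈ S
          · simp [h'] at h
          · simp only [h', if_false, List.cons.injEq] at h
            omega
        · intro v hv a h
          by_cases h' : v ∈ S
          · simp [h'] at h
          · simp only [h', if_false, List.mem_cons] at h
            rcases h with h | h
            · omega
            · exact hφ.letters v (mem_sdiff.2 ⟨hv, h'⟩) a h
    · push Not at hsmall
      obtain ⟨X, A, hX, hXA, hcl, hb1, hb2⟩ := hsep S
      rw [disjoint_left] at hXA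
      let U1 := U ∩ (A ∪ X)
      let U2 := U \ A
      let S1 := (S ∩ A) ∪ (U ∩ X)
      let S2 := (S \ (A ∪ X)) ∪ (U ∩ X)
      have hUX : (U ∩ X).card ≤ K := le_trans (card_le_card inter_subset_right) hX
      have hS1u : S1.card ≤ (S ∩ A).card + K :=
        le_trans (card_union_le _ _) (by omega)
      have hS2u : S2.card ≤ (S \ (A ∪ X)).card + K :=
        le_trans (card_union_le _ _) (by omega)
      have hS1l : S.card ≤ S1.card + (S \ (A ∪ X)).card := by
        refine le_trans (card_le_card ?_) (card_union_le _ _)
        intro v hv
        have := hSU hv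
        simp only [S1, mem_union, mem_inter, mem_sdiff]
        tauto
      have hS2l : S.card ≤ S2.card + (S ∩ A).card := by
        refine le_trans (card_le_card ?_) (card_union_le _ _)
        intro v hv
        have := hSU hv
        simp only [S2, mem_union, mem_inter, mem_sdiff]
        tauto
      have hdis : (S ∩ A).card + (S \ (A ∪ X)).card ≤ S.card := by
        rw [← card_union_of_disjoint]
        · apply card_le_card
          intro v hv
          simp only [mem_union, mem_inter, mem_sdiff] at hv
          tauto
        · rw [disjoint_left]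
          intro v h1 h2
          simp only [mem_union, mem_inter, mem_sdiff] at h1 h2
          tauto
      have h1U : S1 ⊆ U1 := by
        intro v hv
        have := @hSU v
        simp only [S1, U1, mem_union, mem_inter] at hv ⊢
        tauto
      have h2U : S2 ⊆ U2 := by
        intro v hv
        have := @hSU v
        have := @hXA v
        simp only [S2, U2, mem_union, mem_inter, mem_sdiff] at hv ⊢
        tauto
      have hlt1 : U1.card < n := by
        rw [← hn]
        apply card_lt_card
        refine ⟨inter_subset_left, fun h => ?_⟩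
        have : S \ (A ∪ X) = ∅ := by
          rw [sdiff_eq_empty_iff_subset]
          intro v hv
          exact (mem_inter.1 (h (hSU hv))).2
        rw [this, card_empty] at hS1l
        omega
      have hlt2 : U2.card < n := by
        rw [← hn]
        apply card_lt_card
        refine ⟨sdiff_subset, fun h => ?_⟩
        have : S ∩ A = ∅ := by
          rw [eq_empty_iff_forall_notMem]
          intro v hv
          exact (mem_sdiff.1 (h (hSU (mem_inter.1 hv).1))).2 (mem_inter.1 hv).2
        rw [this, card_empty] at hS2l
        omega
      obtain ⟨φ1, g1⟩ := ih _ hlt1 U1 S1 rfl h1U (card_pos.1 (by omega)) (by omega)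
      obtain ⟨φ2, g2⟩ := ih _ hlt2 U2 S2 rfl h2U (card_pos.1 (by omega)) (by omega)
      have m1 : max S1.card (4 * K) = S1.card := max_eq_left (by omega)
      have m2 : max S2.card (4 * K) = S2.card := max_eq_left (by omega)
      have m0 : max S.card (4 * K) = S.card := max_eq_left (by omega)
      let r := S1.card - 2 * K
      have hr : r + 2 * K = S1.card := by omega
      let φ : V → List ℕ := fun v => if v ∈ A then φ1 v else shift r (φ2 v)
      have e2 : ∀ v ∈ U2, φ v = shift r (φ2 v) := by
        intro v hv
        simp [φ, (mem_sdiff.1 hv).2]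
      have e1 : ∀ v ∈ U1, φ v = φ1 v := by
        intro v hv
        by_cases h : v ∈ A
        · simp [φ, h]
        · have hv' : v ∈ U ∩ X := by
            simp only [U1, mem_union, mem_inter] at hv ⊢
            tauto
          rw [g1.root v (mem_union_right _ hv')]
          simp only [φ, h, if_false]
          rw [g2.root v (mem_union_right _ hv')]
          rfl
      have hcov : ∀ v ∈ U, v ∈ U1 ∨ v ∈ U2 := by
        intro v hv
        simp only [U1, U2, mem_union, mem_inter, mem_sdiff]
        tauto
      have hrs : (U.filter (fun v => φ v = [])).card + 4 * K ≤ 2 * S.card := by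
        have h1 := g1.rootsize
        have h2 := g2.rootsize
        have h3 : (U.filter (fun v => φ v = [])) ⊆
            (U1.filter (fun v => φ1 v = [])) ∪ (U2.filter (fun v => φ2 v = [])) := by
          intro v hv
          rw [mem_filter] at hv
          rw [mem_union, mem_filter, mem_filter]
          rcases hcov v hv.1 with h | h
          · exact Or.inl ⟨h, e1 v h ▸ hv.2⟩
          · refine Or.inr ⟨h, ?_⟩
            have := hv.2
            rw [e2 v h] at this
            cases h' : φ2 v with
            | nil => rfl
            | cons a w => rw [h'] at this; simp [shift] at this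
        have h4 := le_trans (card_le_card h3) (card_union_le _ _)
        omega
      have hfirst : ∀ v ∈ U, ∀ a w, φ v = a :: w →
          (v ∈ U1 ∧ φ1 v = a :: w ∧ a < r) ∨
          (v ∈ U2 ∧ r ≤ a ∧ φ2 v = (a - r) :: w ∧ a + 2 * K < S.card) := by
        intro v hv a w h
        rcases hcov v hv with h' | h'
        · rw [e1 v h'] at h
          have := g1.first v h' a w h
          exact Or.inl ⟨h', h, by omega⟩
        · rw [e2 v h'] at h
          cases h'' : φ2 v with
          | nil => rw [h''] at h; simp [shift] at h
          | cons b w' =>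
            rw [h''] at h
            simp only [shift, List.cons.injEq] at h
            have := g2.first v h' b w' h''
            refine Or.inr ⟨h', by omega, ?_, by omega⟩
            rw [← h.1, ← h.2, Nat.add_sub_cancel]
      refine ⟨φ, ?_, ?_, by omega, ?_, ?_, ?_⟩
      · intro v hv
        have hvU := hSU hv
        by_cases h : v ∈ A
        · have h1 : v ∈ S1 := mem_union_left _ (mem_inter.2 ⟨hv, h⟩)
          rw [e1 v (h1U h1), g1.root v h1]
        · have h2 : v ∈ S2 := by
            simp only [S2, mem_union, mem_inter, mem_sdiff]
            tauto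
          rw [e2 v (h2U h2), g2.root v h2]
          rfl
      · intro u hu v hv huv
        by_cases h : u ∈ U2 ∧ v ∈ U2
        · rw [e2 u h.1, e2 v h.2]
          exact (g2.adj u h.1 v h.2 huv).shift r
        · have h' : u ∈ U1 ∧ v ∈ U1 := by
            have a1 := fun h => hcl u h v huv
            have a2 := fun h => hcl v h u huv.symm
            simp only [U1, U2, mem_union, mem_inter, mem_sdiff] at h ⊢
            tauto
          rw [e1 u h'.1, e1 v h'.2]
          exact g1.adj u h'.1 v h'.2 huv
      · intro w
        cases w with
        | nil => omega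
        | cons a w =>
          by_cases ha : a < r
          · refine le_trans (card_le_card ?_) (g1.size (a :: w))
            intro v hv
            rw [mem_filter] at hv ⊢
            rcases hfirst v hv.1 a w hv.2 with h | h
            · exact ⟨h.1, h.2.1⟩
            · omega
          · refine le_trans (card_le_card ?_) (g2.size ((a - r) :: w))
            intro v hv
            rw [mem_filter] at hv ⊢
            rcases hfirst v hv.1 a w hv.2 with h | h
            · omega
            · exact ⟨h.1, h.2.2.1⟩
      · intro v hv a w h
        rcases hfirst v hv a w h with h | h <;> omega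
      · intro v hv a h
        cases h' : φ v with
        | nil => rw [h'] at h; simp at h
        | cons b w =>
          rw [h'] at h
          rcases hfirst v hv b w h' with h1 | h1
          · exact g1.letters v h1.1 a (h1.2.1 ▸ h)
          · rcases List.mem_cons.1 h with h | h
            · omega
            · exact g2.letters v h1.1 a (h1.2.2.1 ▸ List.mem_cons_of_mem _ h)

/-- Tree-partition of bounded width over a tree of bounded degree, as an address map. -/
theorem address (G : SimpleGraph V) (K ℓ M : ℕ) (hK : 1 ≤ K) (hM : 12 * K * ℓ + 12 * K + 1 ≤ M)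
    (hsep : HasSep G K) (hdeg : ∀ v, (G.neighborSet v).ncard ≤ ℓ) :
    ∃ (φ : V → List ℕ) (j : V → ℕ), (∀ u v, G.Adj u v → Near (φ u) (φ v)) ∧
      (∀ v, ∀ a ∈ φ v, a < M) ∧ (∀ v, j v < 2 * M) ∧
      ∀ u v, φ u = φ v → j u = j v → u = v := by
  classical
  rcases isEmpty_or_nonempty V with hV | ⟨⟨v0⟩⟩
  · exact ⟨fun _ => [], fun _ => 0, fun u => hV.elim u, fun u => hV.elim u, fun u => hV.elim u,
      fun u => hV.elim u⟩
  obtain ⟨φ, g⟩ := part G K ℓ M hK hM hsep hdeg _ univ {v0} rfl (subset_univ _)
    (singleton_nonempty _) (by rw [card_singleton]; omega)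
  let e := Fintype.equivFin V
  let F : V → Finset V := fun v => univ.filter (fun u => φ u = φ v ∧ e u < e v)
  have hlt : ∀ u v, φ u = φ v → e u < e v → (F u).card < (F v).card := by
    intro u v h h'
    apply card_lt_card
    refine ⟨fun x hx => ?_, fun hx => ?_⟩
    · simp only [F, mem_filter, mem_univ, true_and] at hx ⊢
      exact ⟨hx.1.trans h, hx.2.trans h'⟩
    · have : u ∈ F u := hx (by simp only [F, mem_filter, mem_univ, true_and]; exact ⟨h, h'⟩)
      simp [F] at this
  refine ⟨φ, fun v => (F v).card, fun u v h => g.adj u (mem_univ _) v (mem_univ _) h,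
    fun v => g.letters v (mem_univ _), fun v => ?_, fun u v h h' => ?_⟩
  · refine lt_of_lt_of_le (card_lt_card ?_) (g.size (φ v))
    refine ⟨fun x hx => ?_, fun hx => ?_⟩
    · simp only [F, mem_filter, mem_univ, true_and] at hx ⊢
      exact hx.1
    · have : v ∈ F v := hx (by simp)
      simp [F] at this
  · apply e.injective
    rcases lt_trichotomy (e u) (e v) with h1 | h1 | h1
    · exact absurd h' (hlt u v h h1).ne
    · exact h1
    · exact absurd h' (hlt v u h.symm h1).ne'

end Pool.Agent.H526Z.DN
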