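import Mathlib

set_option autoImplicit false

namespace Pool.Agent.H526Z.DN

open Finset

section Tree
variable {ι : Type} [Fintype ι] [DecidableEq ι] (T : SimpleGraph ι)

/-- `Q` is a union of components of `T - i`. -/
def Closed (i : ι) (Q : Finset ι) : Prop :=
  i ∉ Q ∧ ∀ x ∈ Q, ∀ y, T.Adj x y → y ≠ i → y ∈ Q

omit [Fintype ι] [DecidableEq ι] in
theorem exists_nbr {i : ι} {Q : Finset ι} (hQ : Closed T i Q) :
    ∀ {x z : ι} (_ : T.Walk x z), z = i → x ∈ Q → ∃ j ∈ Q, T.Adj j i := by
  intro x z p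
  induction p with
  | nil => intro h hx; subst h; exact absurd hx hQ.1
  | @cons a b c hab p ih =>
    intro h hx
    by_cases hb : b = i
    · exact ⟨a, hx, hb ▸ hab⟩
    · exact ih h (hQ.2 a hx b hab hb)

theorem exists_comp (hT : T.IsAcyclic) {i j : ι} (hij : T.Adj j i) :
    ∃ D : Finset ι, j ∈ D ∧ Closed T i D ∧ (∀ Q, Closed T i Q → j ∈ Q → D ⊆ Q) ∧
      Closed T j (D.erase j) := by
  classical
  let r : ι → ι → Prop := fun a b => T.Adj a b ∧ b ≠ i
  let D : Finset ι := univ.filter (fun x => Relation.ReflTransGen r j x)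
  have hD : ∀ x, x ∈ D ↔ Relation.ReflTransGen r j x := by intro x; simp [D]
  have hne : ∀ x, Relation.ReflTransGen r j x → x ≠ i := by
    intro x hx
    induction hx with
    | refl => exact hij.ne
    | tail _ h _ => exact h.2
  have hreach : ∀ x, Relation.ReflTransGen r j x → (T.deleteEdges {s(j, i)}).Reachable j x := by
    intro x hx
    induction hx with
    | refl => exact SimpleGraph.Reachable.refl _
    | @tail b c h1 h ih =>
      refine ih.trans (SimpleGraph.Adj.reachable ?_)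
      rw [SimpleGraph.deleteEdges_adj]
      refine ⟨h.1, ?_⟩
      have h2 := hne b h1
      have h3 := h.2
      simp only [Set.mem_singleton_iff, Sym2.eq_iff]
      tauto
  have hcl : Closed T i D := by
    refine ⟨fun h => hne i ((hD i).1 h) rfl, fun x hx y hxy hy => (hD y).2 ?_⟩
    exact ((hD x).1 hx).tail ⟨hxy, hy⟩
  refine ⟨D, (hD j).2 Relation.ReflTransGen.refl, hcl, ?_, ?_⟩
  · intro Q hQ hj x hx
    have := (hD x).1 hx
    clear hx
    induction this with
    | refl => exact hj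
    | tail _ h ih => exact hQ.2 _ ih _ h.1 h.2
  · refine ⟨by simp, fun x hx y hxy hy => ?_⟩
    rw [mem_erase] at hx ⊢
    refine ⟨hy, hcl.2 x hx.2 y hxy ?_⟩
    rintro rfl
    have hb := (SimpleGraph.isAcyclic_iff_forall_adj_isBridge.1 hT) hij
    rw [SimpleGraph.isBridge_iff] at hb
    apply hb
    refine (hreach x ((hD x).1 hx.2)).trans (SimpleGraph.Adj.reachable ?_)
    rw [SimpleGraph.deleteEdges_adj]
    refine ⟨hxy, ?_⟩
    have h2 := hx.1
    have h3 := hxy.ne
    simp only [Set.mem_singleton_iff, Sym2.eq_iff]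
    tauto

theorem Closed.compl {i : ι} {Q : Finset ι} (hQ : Closed T i Q) :
    Closed T i ((univ \ Q).erase i) := by
  refine ⟨by simp, fun x hx y hxy hy => ?_⟩
  simp only [mem_erase, mem_sdiff, mem_univ, true_and] at hx ⊢
  exact ⟨hy, fun h => hx.2 (hQ.2 y h x hxy.symm hx.1)⟩

theorem Closed.sdiff {i : ι} {Q D : Finset ι} (hQ : Closed T i Q) (hD : Closed T i D) :
    Closed T i (Q \ D) := by
  refine ⟨fun h => hQ.1 (mem_sdiff.1 h).1, fun x hx y hxy hy => ?_⟩
  rw [mem_sdiff] at hx ⊢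
  refine ⟨hQ.2 x hx.1 y hxy hy, fun h => hx.2 (hD.2 y h x hxy.symm ?_)⟩
  rintro rfl
  exact hQ.1 hx.1

/-- Weighted centroid of a tree. -/
theorem centroid (hT : T.IsTree) (w : ι → ℕ) :
    ∃ i Q, Closed T i Q ∧ 3 * ∑ x ∈ Q, w x ≤ 2 * ∑ x, w x ∧
      3 * ∑ x ∈ (univ \ Q).erase i, w x ≤ 2 * ∑ x, w x := by
  classical
  by_contra hcon
  push Not at hcon
  have hsplit : ∀ (i : ι) (Q : Finset ι),
      ∑ x ∈ Q, w x + ∑ x ∈ (univ \ Q).erase i, w x ≤ ∑ x, w x := by
    intro i Q
    have h1 : ∑ x ∈ (univ \ Q).erase i, w x ≤ ∑ x ∈ univ \ Q, w x :=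
      sum_le_sum_of_subset (erase_subset _ _)
    have h2 := sum_sdiff (f := w) (subset_univ Q)
    omega
  have key : ∀ n : ℕ, ∀ i Q, Closed T i Q → Q.card = n → 3 * ∑ x ∈ Q, w x ≤ 2 * ∑ x, w x := by
    intro n
    induction n using Nat.strong_induction_on with
    | _ n ih =>
      intro i Q hQ hn
      by_contra hbig
      push Not at hbig
      have hne : Q.Nonempty := by
        rw [nonempty_iff_ne_empty]
        rintro rfl
        simp at hbig
      obtain ⟨x, hx⟩ := hne
      obtain ⟨p⟩ := hT.connected.preconnected x i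
      obtain ⟨j, hj, hji⟩ := exists_nbr T hQ p rfl hx
      obtain ⟨D, hjD, hD, hmin, hD'⟩ := exists_comp T hT.isAcyclic hji
      have hDQ := hmin Q hQ hj
      have h1 : (Q \ D).card < n := by
        rw [← hn]
        apply card_lt_card
        refine ⟨sdiff_subset, fun h => ?_⟩
        exact (mem_sdiff.1 (h hj)).2 hjD
      have h2 := ih _ h1 i _ (hQ.sdiff T hD) rfl
      have h3 := hcon i _ (hQ.sdiff T hD) h2
      have h4 := hsplit i (Q \ D)
      have h5 := sum_sdiff (f := w) hDQ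
      have h6 := hsplit i D
      by_cases hD2 : 3 * ∑ x ∈ D, w x ≤ 2 * ∑ x, w x
      · have h7 := hcon i D hD hD2
        omega
      · have h7 : (D.erase j).card < n := by
          have := card_le_card hDQ
          have := card_erase_lt_of_mem hjD
          omega
        have h8 := ih _ h7 j _ hD' rfl
        have h9 := hcon j _ hD' h8
        have h10 : (univ \ D.erase j).erase j = univ \ D := by
          ext y
          simp only [mem_erase, mem_sdiff, mem_univ, true_and]
          constructor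
          · rintro ⟨h, h'⟩ h''
            exact h' ⟨h, h''⟩
          · intro h
            exact ⟨fun h' => h (h' ▸ hjD), fun h' => h h'.2⟩
        rw [h10] at h9
        have h11 := sum_sdiff (f := w) (subset_univ D)
        omega
  obtain ⟨i⟩ := hT.connected.nonempty
  have hc : Closed T i ∅ := ⟨by simp, by simp⟩
  have h1 := hcon i ∅ hc (key _ i _ hc rfl)
  have h2 := key _ i _ (hc.compl T) rfl
  omega

end Tree

/-- Balanced separators. -/
def HasSep {V : Type} [DecidableEq V] (G : SimpleGraph V) (K : ℕ) : Prop :=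
  ∀ S : Finset V, ∃ X A : Finset V, X.card ≤ K ∧ Disjoint X A ∧
    (∀ u ∈ A, ∀ v, G.Adj u v → v ∈ A ∨ v ∈ X) ∧
    3 * (S ∩ A).card ≤ 2 * S.card ∧ 3 * (S \ (A ∪ X)).card ≤ 2 * S.card

theorem hasSep {V : Type} [Fintype V] [DecidableEq V] (G : SimpleGraph V) (K : ℕ)
    {ι : Type} [Fintype ι] (T : SimpleGraph ι) (B : ι → Finset V)
    (hT : T.IsTree) (hK : ∀ i, (B i).card ≤ K) (h1 : ∀ v, ∃ i, v ∈ B i)
    (h2 : ∀ u v, G.Adj u v → ∃ i, u ∈ B i ∧ v ∈ B i)
    (h3 : ∀ v i j, v ∈ B i → v ∈ B j → ∃ q : T.Walk i j, ∀ x ∈ q.support, v ∈ B x) :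
    HasSep G K := by
  classical
  intro S
  choose home hhome using h1
  obtain ⟨i, Q, hQ, hw1, hw2⟩ := centroid T hT (fun x => (S.filter (fun v => home v = x)).card)
  have hsum : ∀ R : Finset ι, ∑ x ∈ R, (S.filter (fun v => home v = x)).card =
      (S.filter (fun v => home v ∈ R)).card := by
    intro R
    rw [card_eq_sum_card_fiberwise (f := home) (t := R) (s := S.filter (fun v => home v ∈ R))
      (fun v hv => (mem_filter.1 hv).2)]
    refine sum_congr rfl fun x hx => ?_
    congr 1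
    ext v
    simp only [mem_filter]
    constructor
    · rintro ⟨h, h'⟩
      exact ⟨⟨h, h' ▸ hx⟩, h'⟩
    · rintro ⟨h, h'⟩
      exact ⟨h.1, h'⟩
  rw [hsum, hsum] at hw1 hw2
  simp only [mem_univ, filter_true] at hw1 hw2
  have hwalk : ∀ v, v ∉ B i → ∀ {a b : ι} (q : T.Walk a b), (∀ x ∈ q.support, v ∈ B x) →
      a ∈ Q → b ∈ Q := by
    intro v hv a b q
    induction q with
    | nil => intro _ h; exact h
    | @cons a b c hab q ih =>
      intro h ha
      refine ih (fun x hx => h x (by simp [hx])) (hQ.2 a ha b hab ?_)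
      rintro rfl
      exact hv (h b (by simp))
  refine ⟨B i, univ.filter (fun v => home v ∈ Q ∧ v ∉ B i), hK i, ?_, ?_, ?_, ?_⟩
  · rw [disjoint_left]
    intro v hv hv'
    exact (mem_filter.1 hv').2.2 hv
  · intro u hu v huv
    by_cases hv : v ∈ B i
    · exact Or.inr hv
    left
    simp only [mem_filter, mem_univ, true_and] at hu ⊢
    refine ⟨?_, hv⟩
    obtain ⟨j, hj1, hj2⟩ := h2 u v huv
    obtain ⟨q1, hq1⟩ := h3 u _ _ (hhome u) hj1
    obtain ⟨q2, hq2⟩ := h3 v _ _ hj2 (hhome v)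
    exact hwalk v hv q2 hq2 (hwalk u hu.2 q1 hq1 hu.1)
  · refine le_trans (Nat.mul_le_mul_left 3 (card_le_card ?_)) hw1
    intro v hv
    simp only [mem_inter, mem_filter, mem_univ, true_and] at hv ⊢
    exact ⟨hv.1, hv.2.1⟩
  · refine le_trans (Nat.mul_le_mul_left 3 (card_le_card ?_)) hw2
    intro v hv
    simp only [mem_sdiff, mem_union, mem_filter, mem_univ, true_and, mem_erase, not_or,
      not_and, not_not] at hv ⊢
    refine ⟨hv.1, ?_, fun h => hv.2.2 (hv.2.1 h)⟩
    rintro rfl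
    exact hv.2.2 (hhome v)

end Pool.Agent.H526Z.DN
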